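import Pool.Agent.P8H62.SC.B

/-!
# Harmonic sums modulo `p ^ 3`
-/

namespace Pool.Agent.P8H62.SC

open Finset

/-- pairing `i` with `p - i` -/
lemma prod_split {R : Type*} [CommRing R] (f : ℕ → R) (h : ℕ) :
    ∏ i ∈ range (2 * h), f (i + 1) = ∏ i ∈ range h, (f (i + 1) * f (2 * h + 1 - (i + 1))) := by
  rw [two_mul, prod_range_add, prod_mul_distrib]
  congr 1
  rw [← prod_range_reflect]
  apply prod_congr rfl
  intro i hi
  have := mem_range.1 hi
  congr 1
  omega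

lemma sum_split {R : Type*} [CommRing R] (f : ℕ → R) (h : ℕ) :
    ∑ i ∈ range (2 * h), f (i + 1) = ∑ i ∈ range h, (f (i + 1) + f (2 * h + 1 - (i + 1))) := by
  rw [two_mul, sum_range_add, sum_add_distrib]
  congr 1
  rw [← sum_range_reflect]
  apply sum_congr rfl
  intro i hi
  have := mem_range.1 hi
  congr 1
  omega

lemma prod_even_odd {R : Type*} [CommRing R] (f : ℕ → R) (h : ℕ) :
    ∏ i ∈ range (2 * h), f (i + 1) = (∏ i ∈ range h, f (2 * (i + 1))) * ∏ i ∈ range h, f (2 * i + 1) := by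
  induction h with
  | zero => simp
  | succ h ih =>
    rw [show 2 * (h + 1) = 2 * h + 1 + 1 by ring, prod_range_succ, prod_range_succ, ih,
      prod_range_succ, prod_range_succ]
    rw [show 2 * h + 1 + 1 = 2 * (h + 1) by ring]
    ring

lemma sum_even_odd {R : Type*} [CommRing R] (f : ℕ → R) (h : ℕ) :
    ∑ i ∈ range (2 * h), f (i + 1) = (∑ i ∈ range h, f (2 * (i + 1))) + ∑ i ∈ range h, f (2 * i + 1) := by
  induction h with
  | zero => simp
  | succ h ih =>
    rw [show 2 * (h + 1) = 2 * h + 1 + 1 by ring, sum_range_succ, sum_range_succ, ih,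
      sum_range_succ, sum_range_succ]
    rw [show 2 * h + 1 + 1 = 2 * (h + 1) by ring]
    ring

/-- even numbers and their reflections -/
lemma prod_even {R : Type*} [CommRing R] (f : ℕ → R) (h : ℕ) :
    ∏ i ∈ range (2 * h), f (i + 1) =
      ∏ i ∈ range h, (f (2 * (i + 1)) * f (2 * h + 1 - 2 * (i + 1))) := by
  rw [prod_even_odd, prod_mul_distrib]
  congr 1
  rw [← prod_range_reflect]
  apply prod_congr rfl
  intro i hi
  have := mem_range.1 hi
  congr 1
  omega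

lemma sum_even {R : Type*} [CommRing R] (f : ℕ → R) (h : ℕ) :
    ∑ i ∈ range (2 * h), f (i + 1) =
      ∑ i ∈ range h, (f (2 * (i + 1)) + f (2 * h + 1 - 2 * (i + 1))) := by
  rw [sum_even_odd, sum_add_distrib]
  congr 1
  rw [← sum_range_reflect]
  apply sum_congr rfl
  intro i hi
  have := mem_range.1 hi
  congr 1
  omega

lemma cast_sub_p {p i : ℕ} (hi : i ≤ p) : ((p - i : ℕ) : ZMod (p ^ 3)) = p - i := by
  rw [Nat.cast_sub hi]

lemma refl1 {p i : ℕ} (hp : p.Prime) (h0 : 0 < i) (hi : i < p) :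
    iv p i + iv p (p - i) = p * iv p i * iv p (p - i) := by
  have e1 := mul_iv hp h0 hi
  have e2 := mul_iv hp (k := p - i) (by omega) (by omega)
  rw [cast_sub_p hi.le] at e2
  linear_combination (-iv p (p - i)) * e1 - iv p i * e2

lemma refl_sq {p i : ℕ} (hp : p.Prime) (h0 : 0 < i) (hi : i < p) :
    (p : ZMod (p ^ 3)) ^ 2 * iv p (p - i) ^ 2 = p ^ 2 * iv p i ^ 2 := by
  have e := refl1 hp h0 hi
  have hc := cube_zero p
  linear_combination (p : ZMod (p ^ 3)) ^ 2 * (iv p (p - i) - iv p i) * e +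
    iv p i * iv p (p - i) * (iv p (p - i) - iv p i) * hc

lemma refl_lin {p i : ℕ} (hp : p.Prime) (h0 : 0 < i) (hi : i < p) :
    (p : ZMod (p ^ 3)) * (iv p i + iv p (p - i)) = - p ^ 2 * iv p i ^ 2 := by
  have e := refl1 hp h0 hi
  have hc := cube_zero p
  linear_combination ((p : ZMod (p ^ 3)) + p ^ 2 * iv p i) * e + iv p i ^ 2 * iv p (p - i) * hc

lemma three_unit {p : ℕ} (hp : p.Prime) (h3 : 3 < p) : (3 : ZMod (p ^ 3)) * iv p 3 = 1 := by
  have := mul_iv hp (k := 3) (by omega) (by omega)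
  exact_mod_cast this

lemma H2_def' (p n : ℕ) : H2 p n = ∑ i ∈ range n, iv p (i + 1) ^ 2 := rfl

lemma H_def' (p n : ℕ) : H p n = ∑ i ∈ range n, iv p (i + 1) := rfl

lemma sum_sq {p h : ℕ} (hp : p.Prime) (hph : p = 2 * h + 1) :
    (p : ZMod (p ^ 3)) ^ 2 * H2 p (p - 1) = 2 * p ^ 2 * H2 p h := by
  rw [H2_def' p (p - 1), show p - 1 = 2 * h by omega, sum_split (fun k => iv p k ^ 2), mul_sum,
    H2_def', mul_sum]
  apply sum_congr rfl
  intro i hi
  have hi' := mem_range.1 hi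
  have := refl_sq hp (i := i + 1) (by omega) (by omega)
  rw [show 2 * h + 1 - (i + 1) = p - (i + 1) by omega]
  linear_combination this

lemma sum_sq' {p h : ℕ} (hp : p.Prime) (h3 : 3 < p) (hph : p = 2 * h + 1) :
    (p : ZMod (p ^ 3)) ^ 2 * H2 p (p - 1) = 2 * iv p 2 ^ 2 * p ^ 2 * H2 p h := by
  rw [H2_def' p (p - 1), show p - 1 = 2 * h by omega, sum_even (fun k => iv p k ^ 2), mul_sum,
    H2_def', mul_sum]
  apply sum_congr rfl
  intro i hi
  have hi' := mem_range.1 hi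
  have := refl_sq hp (i := 2 * (i + 1)) (by omega) (by omega)
  rw [show 2 * h + 1 - 2 * (i + 1) = p - 2 * (i + 1) by omega]
  have e := iv_two_mul hp h3 (k := i + 1) (by omega) (by omega)
  rw [e] at this ⊢
  linear_combination this

lemma A2 {p h : ℕ} (hp : p.Prime) (h3 : 3 < p) (hph : p = 2 * h + 1) :
    (p : ZMod (p ^ 3)) ^ 2 * H2 p h = 0 := by
  have e1 := sum_sq hp hph
  have e2 := sum_sq' hp h3 hph
  have u2 := two_unit hp h3
  have u3 := three_unit hp h3
  rw [e1] at e2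
  have e3 : 2 * ((p : ZMod (p ^ 3)) ^ 2 * H2 p h) = 2 * iv p 2 ^ 2 * (p ^ 2 * H2 p h) := by
    linear_combination e2
  generalize (p : ZMod (p ^ 3)) ^ 2 * H2 p h = x at *
  generalize iv p 2 = t at *
  generalize iv p 3 = s at *
  -- `6 x = 0`
  have e4 : 6 * x = 0 := by
    linear_combination 4 * e3 + 2 * x * (2 * t + 1) * u2
  have e5 : (2 * 3) * (t * s) = 1 := by
    linear_combination (3 * s) * u2 + u3
  linear_combination (t * s) * e4 - x * e5

lemma A3 {p h : ℕ} (hp : p.Prime) (h3 : 3 < p) (hph : p = 2 * h + 1) :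
    (p : ZMod (p ^ 3)) ^ 2 * H2 p (p - 1) = 0 := by
  rw [sum_sq hp hph]
  linear_combination (2 : ZMod (p ^ 3)) * A2 hp h3 hph

lemma A1 {p h : ℕ} (hp : p.Prime) (h3 : 3 < p) (hph : p = 2 * h + 1) :
    (p : ZMod (p ^ 3)) * H p (p - 1) = 0 := by
  have e : (p : ZMod (p ^ 3)) * H p (p - 1) = - p ^ 2 * H2 p h := by
    rw [H_def' p (p - 1), show p - 1 = 2 * h by omega, sum_split (fun k => iv p k), mul_sum,
      H2_def', mul_sum]
    apply sum_congr rfl
    intro i hi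
    have hi' := mem_range.1 hi
    have := refl_lin hp (i := i + 1) (by omega) (by omega)
    rw [show 2 * h + 1 - (i + 1) = p - (i + 1) by omega]
    exact this
  rw [e]
  linear_combination (-1 : ZMod (p ^ 3)) * A2 hp h3 hph

/-- the products `∏ (1 - p / (2 i))` -/
noncomputable def Pt (p k : ℕ) : ZMod (p ^ 3) :=
  ∏ i ∈ range k, (1 - (p : ZMod (p ^ 3)) * (iv p 2 * iv p (i + 1)))

lemma Pt_succ (p k : ℕ) :
    Pt p (k + 1) = Pt p k * (1 - (p : ZMod (p ^ 3)) * (iv p 2 * iv p (k + 1))) := by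
  unfold Pt
  rw [prod_range_succ]

lemma two_Pt {p : ℕ} (k : ℕ) :
    2 * Pt p k = 2 - 2 * p * iv p 2 * H p k + p ^ 2 * iv p 2 ^ 2 * (H p k ^ 2 - H2 p k) := by
  have hc := cube_zero p
  induction k with
  | zero => simp [Pt, H_zero, H2_zero]
  | succ k ih =>
    rw [Pt_succ, H_succ, H2_succ]
    linear_combination (1 - (p : ZMod (p ^ 3)) * (iv p 2 * iv p (k + 1))) * ih -
      iv p 2 ^ 3 * ((H p k ^ 2 - H2 p k) * iv p (k + 1)) * hc

lemma fact_one {p h : ℕ} (hp : p.Prime) (hph : p = 2 * h + 1) (n : ℕ) (hn : n ≤ h) :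
    ∏ i ∈ range n, (((i + 1 : ℕ) : ZMod (p ^ 3)) * ((p - (i + 1) : ℕ) : ZMod (p ^ 3))) =
      (-1) ^ n * (n.factorial : ZMod (p ^ 3)) ^ 2 * Pr p n := by
  induction n with
  | zero => simp [Pr_zero]
  | succ n ih =>
    have u := mul_iv hp (k := n + 1) (by omega) (by omega)
    rw [prod_range_succ, ih (by omega), Pr_succ, Nat.factorial_succ, cast_sub_p (by omega),
      show (-1 : ZMod (p ^ 3)) ^ (n + 1) = (-1) ^ n * (-1) from pow_succ _ _]
    push_cast at u ⊢
    linear_combination (-(-1 : ZMod (p ^ 3)) ^ n * (n.factorial : ZMod (p ^ 3)) ^ 2 * Pr p n *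
      ((n : ZMod (p ^ 3)) + 1) * p) * u

lemma fact_two {p h : ℕ} (hp : p.Prime) (h3 : 3 < p) (hph : p = 2 * h + 1) (n : ℕ) (hn : n ≤ h) :
    ∏ i ∈ range n, (((2 * (i + 1) : ℕ) : ZMod (p ^ 3)) * ((p - 2 * (i + 1) : ℕ) : ZMod (p ^ 3))) =
      (-1) ^ n * 4 ^ n * (n.factorial : ZMod (p ^ 3)) ^ 2 * Pt p n := by
  induction n with
  | zero => simp [Pt]
  | succ n ih =>
    have u := mul_iv hp (k := n + 1) (by omega) (by omega)
    have u2 := two_unit hp h3
    rw [prod_range_succ, ih (by omega), Pt_succ, Nat.factorial_succ, cast_sub_p (by omega),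
      show (-1 : ZMod (p ^ 3)) ^ (n + 1) = (-1) ^ n * (-1) from pow_succ _ _,
      show (4 : ZMod (p ^ 3)) ^ (n + 1) = 4 ^ n * 4 from pow_succ _ _]
    push_cast at u ⊢
    linear_combination (-(-1 : ZMod (p ^ 3)) ^ n * 4 ^ n * (n.factorial : ZMod (p ^ 3)) ^ 2 * Pt p n *
      ((n : ZMod (p ^ 3)) + 1) * p * 2) * u + (-(-1 : ZMod (p ^ 3)) ^ n * 4 ^ n *
      (n.factorial : ZMod (p ^ 3)) ^ 2 * Pt p n *
      ((n : ZMod (p ^ 3)) + 1) * p * 2) * ((n : ZMod (p ^ 3)) + 1) * iv p (n + 1) * u2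

lemma fact_unit {p : ℕ} (hp : p.Prime) (n : ℕ) (hn : n < p) :
    (n.factorial : ZMod (p ^ 3)) * ∏ i ∈ range n, iv p (i + 1) = 1 := by
  induction n with
  | zero => simp
  | succ n ih =>
    have u := mul_iv hp (k := n + 1) (by omega) (by omega)
    have e := ih (by omega)
    rw [prod_range_succ, Nat.factorial_succ]
    push_cast at u ⊢
    linear_combination e + (n.factorial : ZMod (p ^ 3)) * (∏ i ∈ range n, iv p (i + 1)) * u

/-- `2 ^ (p - 1) = 1 + p q` -/
lemma two_pow {p : ℕ} (hp : p.Prime) (h3 : 3 < p) : 2 ^ (p - 1) = 1 + p * q p := by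
  have h1 : p ∣ 2 ^ (p - 1) - 1 := by
    have h2 : (2 : ℕ).Coprime p := by
      rw [Nat.coprime_comm]
      exact (Nat.Prime.coprime_iff_not_dvd hp).2 fun h => by
        have := Nat.le_of_dvd (by norm_num) h
        omega
    have h4 := Nat.ModEq.pow_totient h2
    rw [Nat.totient_prime hp] at h4
    exact (Nat.modEq_iff_dvd' Nat.one_le_two_pow).1 h4.symm
  unfold q
  rw [Nat.mul_div_cancel' h1]
  have := Nat.one_le_two_pow (n := p - 1)
  omega

lemma Pr_eq {p h : ℕ} (hp : p.Prime) (h3 : 3 < p) (hph : p = 2 * h + 1) :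
    Pr p h = (1 + p * q p) * Pt p h := by
  have e1 := fact_one hp hph h le_rfl
  have e2 := fact_two hp h3 hph h le_rfl
  have e3 := prod_split (fun k : ℕ => (k : ZMod (p ^ 3))) h
  have e4 := prod_even (fun k : ℕ => (k : ZMod (p ^ 3))) h
  rw [e4, ← hph] at e3
  rw [e1, e2] at e3
  have u := fact_unit hp h (by omega)
  have w : (4 : ZMod (p ^ 3)) ^ h = 1 + p * q p := by
    have := two_pow hp h3
    rw [show p - 1 = 2 * h by omega, pow_mul] at this
    exact_mod_cast congrArg (fun n : ℕ => (n : ZMod (p ^ 3))) this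
  rw [w] at e3
  have hs : ((-1 : ZMod (p ^ 3)) ^ h) * (-1) ^ h = 1 := by
    rw [← mul_pow]; simp
  have hu : ((-1 : ZMod (p ^ 3)) ^ h * (h.factorial : ZMod (p ^ 3)) ^ 2) *
      ((-1) ^ h * (∏ i ∈ range h, iv p (i + 1)) ^ 2) = 1 := by
    calc _ = ((-1 : ZMod (p ^ 3)) ^ h * (-1) ^ h) *
        ((h.factorial : ZMod (p ^ 3)) * ∏ i ∈ range h, iv p (i + 1)) ^ 2 := by ring
      _ = 1 := by rw [hs, u]; ring
  apply unit_cancel hu
  rw [← e3]
  ring

lemma A4_A6 {p h : ℕ} (hp : p.Prime) (h3 : 3 < p) (hph : p = 2 * h + 1) :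
    (p : ZMod (p ^ 3)) * H p h = - 2 * p * q p + p ^ 2 * q p ^ 2 ∧ Pr p h = (1 + p * q p) ^ 2 := by
  have e := Pr_eq hp h3 hph
  have a := two_Pr (p := p) h
  have b := two_Pt (p := p) h
  have c := A2 hp h3 hph
  have hc := cube_zero p
  have u2 := two_unit hp h3
  generalize Pr p h = x at *
  generalize Pt p h = y at *
  generalize H p h = L at *
  generalize H2 p h = L2 at *
  generalize iv p 2 = t at *
  generalize (p : ZMod (p ^ 3)) = P at *
  generalize (q p : ZMod (p ^ 3)) = Q at *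
  have a' : 2 * x = 2 - 2 * P * L + P ^ 2 * L ^ 2 := by
    linear_combination a - c
  have b' : 8 * y = 8 - 4 * P * L + P ^ 2 * L ^ 2 := by
    linear_combination 4 * b + (- 4 * P * L + P ^ 2 * (L ^ 2 - L2) * (2 * t + 1)) * u2 - c
  have s1 : 8 * P * Q + 4 * P * L - 4 * P ^ 2 * Q * L - 3 * P ^ 2 * L ^ 2 = 0 := by
    linear_combination (-8 : ZMod (p ^ 3)) * e + 4 * a' - (1 + P * Q) * b' - Q * L ^ 2 * hc
  have s2 : P ^ 2 * L + 2 * P ^ 2 * Q = 0 := by
    linear_combination t ^ 2 * (P * s1 + (4 * Q * L + 3 * L ^ 2) * hc) -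
      (P ^ 2 * L + 2 * P ^ 2 * Q) * (2 * t + 1) * u2
  have s3 : P * L = - 2 * P * Q + P ^ 2 * Q ^ 2 := by
    linear_combination t ^ 2 * (s1 + (4 * Q + 3 * L - 6 * Q) * s2) -
      (P * L + 2 * P * Q - P ^ 2 * Q ^ 2) * (2 * t + 1) * u2
  refine ⟨s3, ?_⟩
  have s4 : 2 * (x - (1 + P * Q) ^ 2) = 0 := by
    linear_combination a' - 2 * s3 + (L - 2 * Q) * s2
  linear_combination t * s4 - (x - (1 + P * Q) ^ 2) * u2

/-- the alternating sum -/
lemma alt_sum {p : ℕ} (hp : p.Prime) (h3 : 3 < p) (n : ℕ) (hn : 2 * n < p) :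
    ∑ i ∈ range (2 * n), (-1) ^ i * iv p (i + 1) * ((p : ZMod (p ^ 3)) - p ^ 2 * H p i) =
      p * (O p n - iv p 2 * H p n) - p ^ 2 * (Od p n - H2 p (2 * n) + 2 * iv p 2 ^ 2 * H2 p n -
        iv p 2 * XX p n) := by
  induction n with
  | zero => simp [O_zero, H_zero, H2_zero, Od_zero, XX_zero]
  | succ n ih =>
    have e := ih (by omega)
    have e2 := iv_two_mul hp h3 (k := n + 1) (by omega) (by omega)
    have a1 : H p (2 * (n + 1)) = H p (2 * n + 1) + iv p (2 * (n + 1)) := H_succ p (2 * n + 1)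
    have a2 : H p (2 * n + 1) = H p (2 * n) + iv p (2 * n + 1) := H_succ p (2 * n)
    have b1 : H2 p (2 * (n + 1)) = H2 p (2 * n + 1) + iv p (2 * (n + 1)) ^ 2 := H2_succ p (2 * n + 1)
    have b2 : H2 p (2 * n + 1) = H2 p (2 * n) + iv p (2 * n + 1) ^ 2 := H2_succ p (2 * n)
    rw [show 2 * (n + 1) = 2 * n + 1 + 1 by ring, sum_range_succ, sum_range_succ, e,
      show 2 * n + 1 + 1 = 2 * (n + 1) by ring]
    have c1 : (-1 : ZMod (p ^ 3)) ^ (2 * n) = 1 := by
      rw [pow_mul]; simp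
    have c2 : (-1 : ZMod (p ^ 3)) ^ (2 * n + 1) = -1 := by
      rw [show (-1 : ZMod (p ^ 3)) ^ (2 * n + 1) = (-1) ^ (2 * n) * (-1) from pow_succ _ _, c1]; simp
    rw [c1, c2, O_succ, H_succ p n, Od_succ, XX_succ, b1, b2, H2_succ p n, a1, a2, e2]
    ring

lemma two_q {p : ℕ} (hp : p.Prime) (h3 : 3 < p) :
    2 * (p : ZMod (p ^ 3)) * q p =
      ∑ i ∈ range (p - 1), (-1) ^ i * iv p (i + 1) * ((p : ZMod (p ^ 3)) - p ^ 2 * H p i) := by
  have h1 := Nat.sum_range_choose p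
  rw [sum_range_succ, Nat.choose_self] at h1
  obtain ⟨r, hr⟩ : ∃ r, p = r + 1 := ⟨p - 1, by omega⟩
  have h2 : ∑ i ∈ range (p - 1), p.choose (i + 1) + 2 = 2 * 2 ^ (p - 1) := by
    have : p - 1 = r := by omega
    rw [this]
    rw [hr, sum_range_succ', Nat.choose_zero_right, ← hr] at h1
    rw [← pow_succ', ← hr, ← h1]
  rw [two_pow hp h3] at h2
  have h4 : ∑ i ∈ range (p - 1), p.choose (i + 1) = 2 * p * q p := by
    have : 2 * (1 + p * q p) = 2 * p * q p + 2 := by ring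
    omega
  have h5 : 2 * (p : ZMod (p ^ 3)) * q p = ∑ i ∈ range (p - 1), (p.choose (i + 1) : ZMod (p ^ 3)) := by
    exact_mod_cast congrArg (fun n : ℕ => (n : ZMod (p ^ 3))) h4.symm
  rw [h5]
  apply sum_congr rfl
  intro i hi
  have hi' := mem_range.1 hi
  have u := mul_iv hp (k := i + 1) (by omega) (by omega)
  have e1 := Nat.add_one_mul_choose_eq (p - 1) i
  rw [show p - 1 + 1 = p by omega] at e1
  have e2 : (p : ZMod (p ^ 3)) * ((p - 1).choose i : ℕ) = (p.choose (i + 1) : ℕ) * (i + 1) := by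
    exact_mod_cast congrArg (fun n : ℕ => (n : ZMod (p ^ 3))) e1
  rw [choose_eq hp i (by omega)] at e2
  have e3 := p_Pr (p := p) i
  push_cast at u
  linear_combination (-((p.choose (i + 1) : ℕ) : ZMod (p ^ 3))) * u - iv p (i + 1) * e2 +
    (-1) ^ i * iv p (i + 1) * e3

lemma A5 {p h : ℕ} (hp : p.Prime) (h3 : 3 < p) (hph : p = 2 * h + 1) :
    (p : ZMod (p ^ 3)) ^ 2 * XX p h = p ^ 2 * q p ^ 2 := by
  have e := two_q hp h3
  have a := alt_sum hp h3 h (by omega)
  have w : p - 1 = 2 * h := by omega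
  rw [w, a] at e
  have c1 := A1 hp h3 hph
  have c2 := A2 hp h3 hph
  have c3 := A3 hp h3 hph
  have c4 := (A4_A6 hp h3 hph).1
  rw [w] at c1 c3
  have o1 := Od_eq hp h3 h (by omega)
  have o2 := H_two_mul hp h3 h (by omega)
  have u2 := two_unit hp h3
  generalize O p h = o at *
  generalize Od p h = D at *
  generalize H p (2 * h) = K at *
  generalize H2 p (2 * h) = K2 at *
  generalize H p h = L at *
  generalize H2 p h = L2 at *
  generalize XX p h = X at *
  generalize iv p 2 = t at *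
  generalize (p : ZMod (p ^ 3)) = P at *
  generalize (q p : ZMod (p ^ 3)) = Q at *
  -- `P ^ 2 D = - P ^ 2 t X`
  have d1 : P ^ 2 * (2 * D + 2 * t * X) = 0 := by
    rw [o1]
    linear_combination P * K * c1 + c3
  have d2 : P ^ 2 * (D + t * X) = 0 := by
    linear_combination t * d1 - P ^ 2 * (D + t * X) * u2
  have d3 : P * o = - P * t * L := by
    linear_combination c1 - P * o2
  have d4 : P ^ 2 * X = 2 * P * Q + P * L := by
    linear_combination (-1 : ZMod (p ^ 3)) * e - d3 + (P * L - P ^ 2 * X) * u2 + d2 - c3 +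
      2 * t ^ 2 * c2
  rw [d4, c4]
  ring

theorem part_A : S_A := by
  intro p h hp h3 hph
  exact ⟨A1 hp h3 hph, A2 hp h3 hph, A3 hp h3 hph, (A4_A6 hp h3 hph).1, A5 hp h3 hph,
    (A4_A6 hp h3 hph).2⟩

theorem part_B : S_B := by
  intro p h hp h3 hph
  refine ⟨?_, ?_, ?_, ?_⟩
  · intro k hk
    exact prod_central hp h3 hph (cat_eq hp h3 (A1 hp h3 hph) (A3 hp h3 hph)) k hk
  · intro k hk
    rw [choose_eq hp k hk]
    have e := p_Pr (p := p) k
    have hs : ((-1 : ZMod (p ^ 3)) ^ k) ^ 2 = 1 := by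
      rw [← pow_mul, mul_comm, pow_mul]; simp
    have hc := cube_zero p
    calc (p : ZMod (p ^ 3)) * ((-1) ^ k * Pr p k) ^ 2 =
        ((-1 : ZMod (p ^ 3)) ^ k) ^ 2 * (p * Pr p k) * Pr p k := by ring
      _ = (p - p ^ 2 * H p k) * Pr p k := by rw [hs, e]; ring
      _ = p * (1 - 2 * p * H p k) := by
        linear_combination (1 - (p : ZMod (p ^ 3)) * H p k) * e + H p k ^ 2 * hc
  · intro k hk
    exact choose_eq hp k hk
  · exact cat_eq hp h3 (A1 hp h3 hph) (A3 hp h3 hph)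

end Pool.Agent.P8H62.SC
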