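import Pool.Agent.P8H62.SC.C2

/-!
# Binomial coefficients and harmonic sums modulo `p ^ 3`
-/

namespace Pool.Agent.P8H62.SC

open Finset

/-- the products `∏ (1 - p / i)` -/
noncomputable def Pr (p k : ℕ) : ZMod (p ^ 3) := ∏ i ∈ range k, (1 - (p : ZMod (p ^ 3)) * iv p (i + 1))

lemma Pr_zero (p : ℕ) : Pr p 0 = 1 := by simp [Pr]

lemma Pr_succ (p k : ℕ) : Pr p (k + 1) = Pr p k * (1 - (p : ZMod (p ^ 3)) * iv p (k + 1)) := by
  unfold Pr
  rw [prod_range_succ]

lemma choose_eq {p : ℕ} (hp : p.Prime) (k : ℕ) (hk : k < p) :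
    (((p - 1).choose k : ℕ) : ZMod (p ^ 3)) = (-1) ^ k * Pr p k := by
  induction k with
  | zero => simp [Pr_zero]
  | succ k ih =>
    have e := ih (by omega)
    have u := mul_iv hp (k := k + 1) (by omega) (by omega)
    have h1 := Nat.choose_succ_right_eq (p - 1) k
    have h2 : (((p - 1).choose (k + 1) : ℕ) : ZMod (p ^ 3)) * (k + 1) =
        ((p - 1).choose k : ℕ) * (p - (k + 1)) := by
      have h3 : (((p - 1 - k : ℕ) : ZMod (p ^ 3))) = p - (k + 1) := by
        rw [eq_sub_iff_add_eq]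
        have : p - 1 - k + (k + 1) = p := by omega
        exact_mod_cast congrArg (fun n : ℕ => (n : ZMod (p ^ 3))) this
      rw [← h3]
      exact_mod_cast congrArg (fun n : ℕ => (n : ZMod (p ^ 3))) h1
    rw [e] at h2
    rw [Pr_succ, show (-1 : ZMod (p ^ 3)) ^ (k + 1) = (-1) ^ k * (-1) from pow_succ _ _]
    push_cast at u
    generalize (((p - 1).choose (k + 1) : ℕ) : ZMod (p ^ 3)) = C at *
    linear_combination (iv p (k + 1)) * h2 + (-C - (-1) ^ k * Pr p k) * u

lemma p_Pr {p : ℕ} (k : ℕ) :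
    (p : ZMod (p ^ 3)) * Pr p k = p - p ^ 2 * H p k := by
  have hc := cube_zero p
  induction k with
  | zero => simp [Pr_zero, H_zero]
  | succ k ih =>
    rw [Pr_succ, H_succ]
    linear_combination (1 - (p : ZMod (p ^ 3)) * iv p (k + 1)) * ih +
      (H p k * iv p (k + 1)) * hc

lemma two_Pr {p : ℕ} (k : ℕ) :
    2 * Pr p k = 2 - 2 * p * H p k + p ^ 2 * (H p k ^ 2 - H2 p k) := by
  have hc := cube_zero p
  induction k with
  | zero => simp [Pr_zero, H_zero, H2_zero]
  | succ k ih =>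
    rw [Pr_succ, H_succ, H2_succ]
    linear_combination (1 - (p : ZMod (p ^ 3)) * iv p (k + 1)) * ih -
      ((H p k ^ 2 - H2 p k) * iv p (k + 1)) * hc

/-- the products `∏ (1 + p / i)` -/
noncomputable def Pp (p k : ℕ) : ZMod (p ^ 3) := ∏ i ∈ range k, (1 + (p : ZMod (p ^ 3)) * iv p (i + 1))

lemma Pp_zero (p : ℕ) : Pp p 0 = 1 := by simp [Pp]

lemma Pp_succ (p k : ℕ) : Pp p (k + 1) = Pp p k * (1 + (p : ZMod (p ^ 3)) * iv p (k + 1)) := by
  unfold Pp
  rw [prod_range_succ]

lemma two_Pp {p : ℕ} (k : ℕ) :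
    2 * Pp p k = 2 + 2 * p * H p k + p ^ 2 * (H p k ^ 2 - H2 p k) := by
  have hc := cube_zero p
  induction k with
  | zero => simp [Pp_zero, H_zero, H2_zero]
  | succ k ih =>
    rw [Pp_succ, H_succ, H2_succ]
    linear_combination (1 + (p : ZMod (p ^ 3)) * iv p (k + 1)) * ih +
      ((H p k ^ 2 - H2 p k) * iv p (k + 1)) * hc

lemma choose_add_eq {p : ℕ} (hp : p.Prime) (k : ℕ) (hk : k < p) :
    (((p + k).choose k : ℕ) : ZMod (p ^ 3)) = Pp p k := by
  induction k with
  | zero => simp [Pp_zero]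
  | succ k ih =>
    have e := ih (by omega)
    have u := mul_iv hp (k := k + 1) (by omega) (by omega)
    have h1 := Nat.add_one_mul_choose_eq (p + k) k
    have h2 : ((p : ZMod (p ^ 3)) + k + 1) * ((p + k).choose k : ℕ) =
        ((p + k + 1).choose (k + 1) : ℕ) * (k + 1) := by
      exact_mod_cast congrArg (fun n : ℕ => (n : ZMod (p ^ 3))) h1
    rw [e] at h2
    rw [Pp_succ, show p + (k + 1) = p + k + 1 by ring]
    push_cast at u
    generalize (((p + k + 1).choose (k + 1) : ℕ) : ZMod (p ^ 3)) = C at *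
    linear_combination (- iv p (k + 1)) * h2 + (-C + Pp p k) * u

lemma two_unit {p : ℕ} (hp : p.Prime) (h3 : 3 < p) : (2 : ZMod (p ^ 3)) * iv p 2 = 1 := by
  have := mul_iv hp (k := 2) (by omega) (by omega)
  exact_mod_cast this

/-- `(2 p - 1) Cat_{p-1} = 1` -/
lemma cat_eq {p : ℕ} (hp : p.Prime) (h3 : 3 < p)
    (hA1 : (p : ZMod (p ^ 3)) * H p (p - 1) = 0)
    (hA3 : (p : ZMod (p ^ 3)) ^ 2 * H2 p (p - 1) = 0) :
    (2 * p - 1) * ((catalan (p - 1) : ℕ) : ZMod (p ^ 3)) = 1 := by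
  have h1 : (p + (p - 1)).choose (p - 1) = (2 * p - 1) * catalan (p - 1) := by
    have e1 := Nat.add_one_mul_choose_eq (2 * (p - 1)) (p - 1)
    have e2 := succ_mul_catalan_eq_centralBinom (p - 1)
    rw [Nat.centralBinom_eq_two_mul_choose] at e2
    rw [show p - 1 + 1 = p by omega] at e1 e2
    rw [show 2 * (p - 1) + 1 = 2 * p - 1 by omega, ← e2] at e1
    have e3 : (2 * p - 1).choose p = (p + (p - 1)).choose (p - 1) := by
      rw [show p + (p - 1) = 2 * p - 1 by omega]
      rw [← Nat.choose_symm (by omega : p ≤ 2 * p - 1)]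
      congr 1
      omega
    rw [e3] at e1
    have hpos : 0 < p := hp.pos
    apply Nat.eq_of_mul_eq_mul_right hpos
    rw [← e1]
    ring
  have h2 := choose_add_eq hp (p - 1) (by omega)
  rw [h1] at h2
  have h4 : ((2 * p - 1 : ℕ) : ZMod (p ^ 3)) = 2 * p - 1 := by
    rw [Nat.cast_sub (by omega)]
    push_cast
    ring
  push_cast at h2
  rw [h4] at h2
  rw [h2]
  have h5 := two_Pp (p := p) (p - 1)
  have u := two_unit hp h3
  apply unit_cancel u
  rw [h5]
  linear_combination (2 : ZMod (p ^ 3)) * hA1 + (p : ZMod (p ^ 3)) * H p (p - 1) * hA1 - hA3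

/-- the product of two central binomial coefficients -/
lemma prod_central {p h : ℕ} (hp : p.Prime) (h3 : 3 < p) (hph : p = 2 * h + 1)
    (hcat : (2 * p - 1) * ((catalan (p - 1) : ℕ) : ZMod (p ^ 3)) = 1) (k : ℕ) (hk : k < h) :
    (((2 * k).choose k * (2 * (p - 1 - k)).choose (p - 1 - k) : ℕ) : ZMod (p ^ 3)) =
      - p * iv p (2 * k + 1) * (1 + 2 * p * (H p (2 * k + 1) - H p k)) := by
  have hc := cube_zero p
  induction k with
  | zero =>
    have h1 : (2 * (p - 1)).choose (p - 1) = p * catalan (p - 1) := by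
      have e2 := succ_mul_catalan_eq_centralBinom (p - 1)
      rw [Nat.centralBinom_eq_two_mul_choose] at e2
      rw [← e2, show p - 1 + 1 = p by omega]
    have h2 : ((catalan (p - 1) : ℕ) : ZMod (p ^ 3)) = - (1 + 2 * p + 4 * p ^ 2) := by
      apply unit_cancel (a := (2 * (p : ZMod (p ^ 3)) - 1))
        (b := ((catalan (p - 1) : ℕ) : ZMod (p ^ 3))) hcat
      rw [hcat]
      linear_combination 8 * hc
    simp only [mul_zero, Nat.choose_self, one_mul, Nat.sub_zero, zero_add, H_zero, H_succ,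
      iv_one hp]
    rw [h1]
    push_cast
    rw [h2]
    linear_combination (-4) * hc
  | succ k ih =>
    have e := ih (by omega)
    obtain ⟨j, hj⟩ : ∃ j, p - 1 - k = j + 1 := ⟨p - 1 - k - 1, by omega⟩
    have hj2 : p - 1 - (k + 1) = j := by omega
    rw [hj] at e
    rw [hj2]
    have n1 := Nat.succ_mul_centralBinom_succ k
    have n2 := Nat.succ_mul_centralBinom_succ j
    simp only [Nat.centralBinom_eq_two_mul_choose] at n1 n2
    have m1 : ((k : ZMod (p ^ 3)) + 1) * ((2 * (k + 1)).choose (k + 1) : ℕ) =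
        2 * (2 * k + 1) * ((2 * k).choose k : ℕ) := by
      exact_mod_cast congrArg (fun n : ℕ => (n : ZMod (p ^ 3))) n1
    have m2 : ((j : ZMod (p ^ 3)) + 1) * ((2 * (j + 1)).choose (j + 1) : ℕ) =
        2 * (2 * j + 1) * ((2 * j).choose j : ℕ) := by
      exact_mod_cast congrArg (fun n : ℕ => (n : ZMod (p ^ 3))) n2
    have u1 := mul_iv hp (k := k + 1) (by omega) (by omega)
    have u2 := mul_iv hp (k := 2 * k + 1) (by omega) (by omega)
    have u3 := mul_iv hp (k := 2 * k + 3) (by omega) (by omega)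
    have u4 := two_unit hp h3
    have i2 := iv_two_mul hp h3 (k := k + 1) (by omega) (by omega)
    have v : (j : ZMod (p ^ 3)) = p - (k + 2) := by
      rw [eq_sub_iff_add_eq]
      have : j + (k + 2) = p := by omega
      exact_mod_cast congrArg (fun n : ℕ => (n : ZMod (p ^ 3))) this
    have hK : H p (2 * (k + 1) + 1) = H p (2 * k + 1) + iv p 2 * iv p (k + 1) + iv p (2 * k + 3) := by
      have a1 : H p (2 * (k + 1) + 1) = H p (2 * k + 2) + iv p (2 * k + 3) := H_succ p (2 * k + 2)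
      have a2 : H p (2 * k + 2) = H p (2 * k + 1) + iv p (2 * (k + 1)) := H_succ p (2 * k + 1)
      rw [a1, a2, i2]
    rw [hK, H_succ p k, show 2 * (k + 1) + 1 = 2 * k + 3 by ring]
    push_cast at u1 u2 u3 e ⊢
    rw [v] at m2
    generalize (((2 * (k + 1)).choose (k + 1) : ℕ) : ZMod (p ^ 3)) = c1 at *
    generalize (((2 * k).choose k : ℕ) : ZMod (p ^ 3)) = c0 at *
    generalize (((2 * (j + 1)).choose (j + 1) : ℕ) : ZMod (p ^ 3)) = d1 at *
    generalize (((2 * j).choose j : ℕ) : ZMod (p ^ 3)) = d0 at *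
    generalize H p (2 * k + 1) = K at *
    generalize H p k = L at *
    generalize iv p (2 * k + 3) = z1 at *
    generalize iv p (2 * k + 1) = z at *
    generalize iv p (k + 1) = x at *
    generalize iv p 2 = t at *
    clear ih v hK hj hj2 hcat
    generalize (p : ZMod (p ^ 3)) = P at *
    generalize (k : ZMod (p ^ 3)) = I at *
    -- the ratio
    have r : (I + 1) * (2 * P - (2 * I + 3)) * (c1 * d0) * 2 =
        (2 * I + 1) * (P - (I + 1)) * (c0 * d1) * 2 := by
      linear_combination (2 * P - (2 * I + 3)) * d0 * 2 * m1 - 2 * (2 * I + 1) * c0 * m2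
    have r2 : (I + 1) * (2 * P - (2 * I + 3)) * (c1 * d0) =
        (2 * I + 1) * (P - (I + 1)) * (c0 * d1) := by
      linear_combination t * r - ((I + 1) * (2 * P - (2 * I + 3)) * (c1 * d0) -
        (2 * I + 1) * (P - (I + 1)) * (c0 * d1)) * u4
    rw [e] at r2
    have hab : ((I + 1) * (2 * P - (2 * I + 3))) * (- x * z1 * (1 + 2 * P * z1 + 4 * P ^ 2 * z1 ^ 2))
        = 1 := by
      linear_combination (-(2 * P - (2 * I + 3)) * z1 * (1 + 2 * P * z1 + 4 * P ^ 2 * z1 ^ 2)) * u1 +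
        (1 + 2 * P * z1 + 4 * P ^ 2 * z1 ^ 2) * u3 - 8 * z1 ^ 3 * hc
    apply unit_cancel hab
    rw [r2]
    linear_combination (-P * (P - (I + 1)) * (1 + 2 * P * (K - L))) * u2 +
      (-2 * (K - L) + 4 * (I + 1) * (K - L + (t - 1) * x + z1) * z1) * hc -
      P * (I + 1) * (1 + 2 * P * (K - L + (t - 1) * x + z1)) * u3 - 2 * P ^ 2 * (t - 1) * u1 -
      P ^ 2 * u4

end Pool.Agent.P8H62.SC
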