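import Pool.Agent.P8H62.SC.Defs

/-!
# Exact identities for harmonic sums
-/

namespace Pool.Agent.P8H62.SC

open Finset

/-- the inverse of `k` modulo `p ^ 3` -/
noncomputable def iv (p k : ℕ) : ZMod (p ^ 3) := ((k : ℕ) : ZMod (p ^ 3))⁻¹

lemma mul_iv {p k : ℕ} (hp : p.Prime) (h0 : 0 < k) (hk : k < p) :
    ((k : ℕ) : ZMod (p ^ 3)) * iv p k = 1 := by
  unfold iv
  apply ZMod.coe_mul_inv_eq_one
  apply Nat.Coprime.pow_right
  rw [Nat.coprime_comm]
  exact (Nat.Prime.coprime_iff_not_dvd hp).2 fun h => by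
    have := Nat.le_of_dvd h0 h
    omega

lemma H_zero (p : ℕ) : H p 0 = 0 := by simp [H]

lemma H_succ (p n : ℕ) : H p (n + 1) = H p n + iv p (n + 1) := by
  unfold H iv
  rw [sum_range_succ]

lemma H2_zero (p : ℕ) : H2 p 0 = 0 := by simp [H2]

lemma H2_succ (p n : ℕ) : H2 p (n + 1) = H2 p n + iv p (n + 1) ^ 2 := by
  unfold H2 iv
  rw [sum_range_succ]

lemma XX_succ (p n : ℕ) : XX p (n + 1) = XX p n + H p (2 * (n + 1)) * iv p (n + 1) := by
  unfold XX iv
  rw [sum_range_succ]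

lemma XX_zero (p : ℕ) : XX p 0 = 0 := by simp [XX]

lemma unit_cancel {R : Type*} [CommRing R] {a b x y : R} (h : a * b = 1) (e : a * x = a * y) :
    x = y := by
  linear_combination (x - y) * (-h) + b * e

/-- `iv 2 * iv k = iv (2 k)` -/
lemma iv_two_mul {p k : ℕ} (hp : p.Prime) (h3 : 3 < p) (h0 : 0 < k) (hk : 2 * k < p) :
    iv p (2 * k) = iv p 2 * iv p k := by
  have h1 := mul_iv hp (k := 2 * k) (by omega) hk
  have h2 := mul_iv hp (k := 2) (by omega) (by omega)
  have h4 := mul_iv hp (k := k) h0 (by omega)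
  apply unit_cancel h1
  rw [h1]
  push_cast at *
  linear_combination (-1 : ZMod (p ^ 3)) * (2 * iv p 2) * h4 - h2

/-- the odd harmonic sums -/
noncomputable def O (p n : ℕ) : ZMod (p ^ 3) := ∑ i ∈ range n, iv p (2 * i + 1)

lemma O_zero (p : ℕ) : O p 0 = 0 := by simp [O]

lemma O_succ (p n : ℕ) : O p (n + 1) = O p n + iv p (2 * n + 1) := by
  unfold O
  rw [sum_range_succ]

lemma H_two_mul {p : ℕ} (hp : p.Prime) (h3 : 3 < p) (n : ℕ) (hn : 2 * n < p) :
    H p (2 * n) = O p n + iv p 2 * H p n := by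
  induction n with
  | zero => simp [H_zero, O_zero]
  | succ n ih =>
    rw [show 2 * (n + 1) = 2 * n + 1 + 1 by ring, H_succ, H_succ, ih (by omega), O_succ, H_succ,
      show 2 * n + 1 + 1 = 2 * (n + 1) by ring, iv_two_mul hp h3 (by omega) (by omega)]
    ring

/-- `∑ H_j / j` -/
lemma sum_H_iv (p n : ℕ) :
    2 * ∑ j ∈ range n, H p (j + 1) * iv p (j + 1) = H p n ^ 2 + H2 p n := by
  induction n with
  | zero => simp [H_zero, H2_zero]
  | succ n ih =>
    rw [sum_range_succ, mul_add, ih, H_succ, H2_succ]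
    ring

/-- the first sum -/
lemma sum_S1 {p : ℕ} (n : ℕ) (h1 : iv p 1 = 1) :
    ∑ i ∈ range n, (iv p (i + 2) + iv p (i + 1) - 2 * iv p (2 * i + 3)) =
      H p (n + 1) - 1 + H p n - 2 * (O p (n + 1) - 1) := by
  induction n with
  | zero => simp [H_zero, O_zero, H_succ, O_succ, h1]
  | succ n ih =>
    rw [sum_range_succ, ih, H_succ p (n + 1), H_succ p n, O_succ p (n + 1),
      show 2 * (n + 1) + 1 = 2 * n + 3 by ring]
    ring

/-- the sum of all `H_l / l`, `l` odd -/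
noncomputable def Od (p n : ℕ) : ZMod (p ^ 3) :=
  ∑ i ∈ range n, H p (2 * i + 1) * iv p (2 * i + 1)

lemma Od_succ (p n : ℕ) :
    Od p (n + 1) = Od p n + H p (2 * n + 1) * iv p (2 * n + 1) := by
  unfold Od
  rw [sum_range_succ]

lemma Od_zero (p : ℕ) : Od p 0 = 0 := by simp [Od]

lemma Od_eq {p : ℕ} (hp : p.Prime) (h3 : 3 < p) (n : ℕ) (hn : 2 * n < p) :
    2 * Od p n + 2 * iv p 2 * XX p n = H p (2 * n) ^ 2 + H2 p (2 * n) := by
  induction n with
  | zero => simp [Od_zero, XX_zero, H_zero, H2_zero]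
  | succ n ih =>
    have e := ih (by omega)
    have e2 := iv_two_mul hp h3 (k := n + 1) (by omega) (by omega)
    have a1 : H p (2 * (n + 1)) = H p (2 * n + 1) + iv p (2 * (n + 1)) := H_succ p (2 * n + 1)
    have a2 : H p (2 * n + 1) = H p (2 * n) + iv p (2 * n + 1) := H_succ p (2 * n)
    have b1 : H2 p (2 * (n + 1)) = H2 p (2 * n + 1) + iv p (2 * (n + 1)) ^ 2 := H2_succ p (2 * n + 1)
    have b2 : H2 p (2 * n + 1) = H2 p (2 * n) + iv p (2 * n + 1) ^ 2 := H2_succ p (2 * n)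
    rw [Od_succ, XX_succ, b1, b2, a1, a2, e2]
    linear_combination e

/-- `∑ H_k / (2k+1)` -/
lemma sum_H_odd {p : ℕ} (hp : p.Prime) (h3 : 3 < p) (n : ℕ) (hn : 2 * n < p) :
    ∑ i ∈ range n, H p (i + 1) * iv p (2 * i + 3) =
      H p n * O p (n + 1) - XX p n + iv p 2 * ∑ j ∈ range n, H p (j + 1) * iv p (j + 1) := by
  induction n with
  | zero => simp [H_zero, XX_zero]
  | succ n ih =>
    have e := ih (by omega)
    have e2 := H_two_mul hp h3 (n + 1) (by omega)
    rw [sum_range_succ, e, sum_range_succ, XX_succ, e2, H_succ p n, O_succ p (n + 1),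
      show 2 * (n + 1) + 1 = 2 * n + 3 by ring]
    ring

/-- the third sum -/
lemma sum_T3 {p : ℕ} (hp : p.Prime) (h3 : 3 < p) (n : ℕ) (hn : 2 * n < p) (h1 : iv p 1 = 1) :
    ∑ i ∈ range n, (H p (2 * i + 3) - 2 * H p (i + 1)) * iv p (2 * i + 3) =
      Od p (n + 1) - 1 - 2 * (H p n * O p (n + 1) - XX p n +
        iv p 2 * ∑ j ∈ range n, H p (j + 1) * iv p (j + 1)) := by
  rw [← sum_H_odd hp h3 n hn]
  have : ∑ i ∈ range n, H p (2 * i + 3) * iv p (2 * i + 3) = Od p (n + 1) - 1 := by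
    clear hn
    induction n with
    | zero => simp [Od_succ, Od_zero, H_succ, H_zero, h1]
    | succ n ih =>
      rw [sum_range_succ, ih, Od_succ p (n + 1), show 2 * (n + 1) + 1 = 2 * n + 3 by ring]
      ring
  rw [← this, mul_sum, ← sum_sub_distrib]
  apply sum_congr rfl
  intro i _
  ring

/-- the first sum in `T` -/
lemma sum_T1 {p : ℕ} (hp : p.Prime) (h3 : 3 < p) (n : ℕ) (hn : 2 * (n + 1) < p)
    (h1 : iv p 1 = 1) :
    ∑ i ∈ range n, (H p (2 * i + 3) - 2 * H p (i + 1)) * iv p (i + 2) =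
      XX p (n + 1) - 2 * (∑ j ∈ range (n + 1), H p (j + 1) * iv p (j + 1)) +
        (2 - iv p 2) * H2 p (n + 1) - 1 := by
  induction n with
  | zero =>
    have e2 := mul_iv hp (k := 2) (by omega) (by omega)
    push_cast at e2
    simp only [range_zero, sum_empty, zero_add, XX_succ, XX_zero, range_one, sum_singleton, H2_succ,
      H2_zero, H_zero, h1]
    rw [show 2 * 1 = 1 + 1 by ring, H_succ, H_succ, H_zero]
    simp only [zero_add, h1]
    rw [show 1 + 1 = 2 by ring]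
    ring
  | succ n ih =>
    rw [sum_range_succ, ih (by omega), XX_succ p (n + 1), sum_range_succ _ (n + 1),
      H2_succ p (n + 1), show 2 * (n + 1 + 1) = 2 * n + 3 + 1 by ring, H_succ p (2 * n + 3),
      show 2 * n + 3 + 1 = 2 * (n + 2) by ring, iv_two_mul hp h3 (k := n + 2) (by omega) (by omega),
      H_succ p (n + 1)]
    ring

/-- the second sum in `T` -/
lemma sum_T2 {p : ℕ} (hp : p.Prime) (n : ℕ) (hn : 2 * (n + 1) < p) (h1 : iv p 1 = 1) :
    ∑ i ∈ range n, (H p (2 * i + 3) - 2 * H p (i + 1)) * iv p (i + 1) =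
      XX p n - 2 * (∑ j ∈ range n, H p (j + 1) * iv p (j + 1)) + H p n - 2 * (O p (n + 1) - 1) := by
  induction n with
  | zero => simp [XX_zero, H_zero, O_succ, O_zero, h1]
  | succ n ih =>
    have e1 := mul_iv hp (k := n + 1) (by omega) (by omega)
    have e2 := mul_iv hp (k := 2 * n + 3) (by omega) (by omega)
    push_cast at e1 e2
    have e3 : iv p (n + 1) * iv p (2 * n + 3) = iv p (n + 1) - 2 * iv p (2 * n + 3) := by
      linear_combination (-iv p (2 * n + 3) * 2) * e1 + iv p (n + 1) * e2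
    rw [sum_range_succ, ih (by omega), XX_succ p n, sum_range_succ, O_succ p (n + 1),
      show 2 * (n + 1) + 1 = 2 * n + 3 by ring, H_succ p (2 * n + 2),
      show 2 * n + 2 + 1 = 2 * n + 3 by ring, H_succ p n, show 2 * (n + 1) = 2 * n + 2 by ring]
    linear_combination e3

/-- the fourth sum in `T` -/
lemma sum_T4 {p : ℕ} (hp : p.Prime) (n : ℕ) (hn : 2 * (n + 1) < p) (h1 : iv p 1 = 1) :
    ∑ i ∈ range n, iv p (i + 1) ^ 2 * iv p (2 * i + 3) =
      H2 p n - 2 * H p n + 4 * (O p (n + 1) - 1) := by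
  induction n with
  | zero => simp [H2_zero, H_zero, O_succ, O_zero, h1]
  | succ n ih =>
    have e1 := mul_iv hp (k := n + 1) (by omega) (by omega)
    have e2 := mul_iv hp (k := 2 * n + 3) (by omega) (by omega)
    push_cast at e1 e2
    have e3 : iv p (n + 1) * iv p (2 * n + 3) = iv p (n + 1) - 2 * iv p (2 * n + 3) := by
      linear_combination (-iv p (2 * n + 3) * 2) * e1 + iv p (n + 1) * e2
    rw [sum_range_succ, ih (by omega), H2_succ p n, H_succ p n, O_succ p (n + 1),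
      show 2 * (n + 1) + 1 = 2 * n + 3 by ring]
    linear_combination (iv p (n + 1) - 2) * e3

end Pool.Agent.P8H62.SC
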