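import Pool.Agent.P8H62.SC.C1

/-!
# The two sums modulo `p ^ 3`
-/

namespace Pool.Agent.P8H62.SC

open Finset

lemma cube_zero (p : ℕ) : ((p : ℕ) : ZMod (p ^ 3)) ^ 3 = 0 := by
  have := ZMod.natCast_self (p ^ 3)
  push_cast at this
  exact this

lemma iv_one {p : ℕ} (hp : p.Prime) : iv p 1 = 1 := by
  have := mul_iv hp (k := 1) (by omega) hp.one_lt
  simpa using this

/-- `1 / h = - 2 (1 + p + p ^ 2)` -/
lemma iv_h {p h : ℕ} (hp : p.Prime) (h3 : 3 < p) (hph : p = 2 * h + 1) :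
    iv p h = - 2 * (1 + p + p ^ 2) := by
  have e1 := mul_iv hp (k := h) (by omega) (by omega)
  have e2 : ((p : ℕ) : ZMod (p ^ 3)) = 2 * (h : ℕ) + 1 := by
    have : ((p : ℕ) : ZMod (p ^ 3)) = ((2 * h + 1 : ℕ) : ZMod (p ^ 3)) :=
      congrArg (fun n : ℕ => (n : ZMod (p ^ 3))) hph
    rw [this]
    push_cast
    ring
  have e3 := cube_zero p
  have e4 : ((h : ℕ) : ZMod (p ^ 3)) * (- 2 * (1 + p + p ^ 2)) = 1 := by
    have : (2 : ZMod (p ^ 3)) * (h : ℕ) = p - 1 := by rw [e2]; ring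
    linear_combination (-(1 + (p : ZMod (p ^ 3)) + p ^ 2)) * this - e3
  apply unit_cancel (a := ((h : ℕ) : ZMod (p ^ 3))) (b := iv p h) e1
  rw [e1, e4]

/-- `p S_1` -/
lemma S1_val {p m : ℕ} (hp : p.Prime) (h3 : 3 < p) (hph : p = 2 * (m + 1) + 1)
    (hA : (p : ZMod (p ^ 3)) * H p (p - 1) = 0) :
    (p : ZMod (p ^ 3)) * ∑ i ∈ range m, (iv p (i + 2) + iv p (i + 1) - 2 * iv p (2 * i + 3)) =
      p * (3 * H p (m + 1) + 3 + 2 * p) := by
  rw [sum_S1 m (iv_one hp)]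
  have e1 := H_succ p m
  have e2 := H_two_mul hp h3 (m + 1) (by omega)
  have e3 := iv_h hp h3 hph
  have e4 : (p : ZMod (p ^ 3)) * H p (2 * (m + 1)) = 0 := by
    rw [← hA]; congr 2; omega
  have e5 := mul_iv hp (k := 2) (by omega) (by omega)
  have e6 := cube_zero p
  push_cast at e5
  rw [e2] at e4
  have hm : H p m = H p (m + 1) - iv p (m + 1) := by rw [e1]; ring
  rw [hm, e3]
  linear_combination (-2 : ZMod (p ^ 3)) * e4 + (p : ZMod (p ^ 3)) * H p (m + 1) * e5 + 2 * e6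

/-- `p ^ 2 S_2` -/
lemma S2_val {p m q : ℕ} (hp : p.Prime) (h3 : 3 < p) (hph : p = 2 * (m + 1) + 1)
    (hA1 : (p : ZMod (p ^ 3)) * H p (p - 1) = 0)
    (hA2 : (p : ZMod (p ^ 3)) ^ 2 * H2 p (m + 1) = 0)
    (hA3 : (p : ZMod (p ^ 3)) ^ 2 * H2 p (p - 1) = 0)
    (hA4 : (p : ZMod (p ^ 3)) * H p (m + 1) = - 2 * p * q + p ^ 2 * q ^ 2)
    (hA5 : (p : ZMod (p ^ 3)) ^ 2 * XX p (m + 1) = p ^ 2 * q ^ 2) :
    (p : ZMod (p ^ 3)) ^ 2 * ∑ i ∈ range m,
      (2 * (iv p (i + 2) + iv p (i + 1) - 2 * iv p (2 * i + 3)) *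
        (H p (2 * i + 3) - 2 * H p (i + 1)) + iv p (i + 1) ^ 2 * iv p (2 * i + 3)) =
      p ^ 2 * (16 * q - 26 * q ^ 2 - 2) := by
  have h1 := iv_one hp
  have T1 := sum_T1 hp h3 m (by omega) h1
  have T2 := sum_T2 hp m (by omega) h1
  have T3 := sum_T3 hp h3 m (by omega) h1
  have T4 := sum_T4 hp m (by omega) h1
  have hs : ∑ i ∈ range m,
      (2 * (iv p (i + 2) + iv p (i + 1) - 2 * iv p (2 * i + 3)) *
        (H p (2 * i + 3) - 2 * H p (i + 1)) + iv p (i + 1) ^ 2 * iv p (2 * i + 3)) =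
      2 * (∑ i ∈ range m, (H p (2 * i + 3) - 2 * H p (i + 1)) * iv p (i + 2)) +
      2 * (∑ i ∈ range m, (H p (2 * i + 3) - 2 * H p (i + 1)) * iv p (i + 1)) -
      4 * (∑ i ∈ range m, (H p (2 * i + 3) - 2 * H p (i + 1)) * iv p (2 * i + 3)) +
      ∑ i ∈ range m, iv p (i + 1) ^ 2 * iv p (2 * i + 3) := by
    rw [mul_sum, mul_sum, mul_sum, ← sum_add_distrib, ← sum_sub_distrib, ← sum_add_distrib]
    apply sum_congr rfl
    intro i _
    ring
  rw [hs, T1, T2, T3, T4]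
  clear hs T1 T2 T3 T4
  have y1 := sum_H_iv p (m + 1)
  have y2 := sum_H_iv p m
  have o1 := Od_eq hp h3 (m + 1) (by omega)
  have e3 := iv_h hp h3 hph
  have e4 : (p : ZMod (p ^ 3)) * H p (2 * (m + 1)) = 0 := by
    rw [← hA1]; congr 2; omega
  have e4' : (p : ZMod (p ^ 3)) ^ 2 * H2 p (2 * (m + 1)) = 0 := by
    rw [← hA3]; congr 2; omega
  have e5 := mul_iv hp (k := 2) (by omega) (by omega)
  have e6 := cube_zero p
  push_cast at e5
  have hm : H p m = H p (m + 1) - iv p (m + 1) := by rw [H_succ]; ring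
  have hm' : H2 p m = H2 p (m + 1) - iv p (m + 1) ^ 2 := by rw [H2_succ]; ring
  have hm'' : XX p m = XX p (m + 1) - H p (2 * (m + 1)) * iv p (m + 1) := by rw [XX_succ]; ring
  have hO : O p (m + 1) = H p (2 * (m + 1)) - iv p 2 * H p (m + 1) := by
    rw [H_two_mul hp h3 (m + 1) (by omega)]; ring
  rw [hm, hm'] at y2
  rw [hm, hm', hm'', hO]
  generalize ∑ j ∈ range (m + 1), H p (j + 1) * iv p (j + 1) = Y1 at *
  generalize ∑ j ∈ range m, H p (j + 1) * iv p (j + 1) = Y2 at *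
  generalize H p (2 * (m + 1)) = K at *
  generalize H2 p (2 * (m + 1)) = K2 at *
  generalize Od p (m + 1) = D at *
  generalize XX p (m + 1) = X at *
  generalize H p (m + 1) = h at *
  generalize H2 p (m + 1) = h2 at *
  generalize iv p 2 = t at *
  generalize iv p (m + 1) = i at *
  generalize (p : ZMod (p ^ 3)) = P at *
  generalize (q : ZMod (p ^ 3)) = Q at *
  have E : 2 * (X - 2 * Y1 + (2 - t) * h2 - 1) +
      2 * (X - K * i - 2 * Y2 + (h - i) - 2 * (K - t * h - 1)) -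
      4 * (D - 1 - 2 * ((h - i) * (K - t * h) - (X - K * i) + t * Y2)) +
      (h2 - i ^ 2 - 2 * (h - i) + 4 * (K - t * h - 1)) =
      - 2 * X - 6 * h ^ 2 + 4 * i * h - i ^ 2 + 2 + 2 * h2 + K * (6 * i - 2 * K + 8 * (h - i)) -
        2 * K2 := by
    linear_combination (-2 : ZMod (p ^ 3)) * y1 + (4 * t - 2) * y2 - 2 * o1 +
      (2 * X - h2 + 2 * ((h - i) ^ 2 + (h2 - i ^ 2)) - 4 * h * (h - i)) * e5
  rw [E]
  have hPh : P ^ 2 * h = - 2 * P ^ 2 * Q := by linear_combination P * hA4 + Q ^ 2 * e6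
  have hPi : P ^ 2 * i = - 2 * P ^ 2 := by
    rw [e3]; linear_combination (-2 - 2 * P) * e6
  linear_combination (-2 : ZMod (p ^ 3)) * hA5 + (- 6 * h + 12 * Q + 4 * i) * hPh +
    (- 8 * Q - i + 2) * hPi + 2 * hA2 + P * (6 * i - 2 * K + 8 * (h - i)) * e4 - 2 * e4'

end Pool.Agent.P8H62.SC
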