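import Pool.Agent.P8H62.SC.C2
import Pool.Agent.R499.Domb

/-!
# The sum `a_p` modulo `p ^ 3`
-/

namespace Pool.Agent.P8H62.SC

open Finset

/-- the product of two central binomial coefficients -/
def F (p k : ℕ) : ℕ := (2 * k).choose k * (2 * (p - 1 - k)).choose (p - 1 - k)

lemma F_symm (p k : ℕ) (hk : k ≤ p - 1) : F p (p - 1 - k) = F p k := by
  unfold F
  rw [show p - 1 - (p - 1 - k) = k by omega, mul_comm]

/-- the terms of `(p - 1) a_p` -/
def tm (p k : ℕ) : ℕ :=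
  k * (p - 1).choose k ^ 2 * catalan k * (2 * (p - 1 - k)).choose (p - 1 - k)

/-- `(p - 1) a_p` as a sum -/
lemma Z_eq (M : ℕ) :
    (M + 1) * Pool.Agent.R499.Domb.Z M = ∑ k ∈ range (M + 1), tm (M + 2) (k + 1) := by
  unfold Pool.Agent.R499.Domb.Z
  rw [← Finset.Nat.sum_antidiagonal_swap, Finset.Nat.sum_antidiagonal_eq_sum_range_succ_mk, mul_sum]
  apply sum_congr rfl
  intro k hk
  rw [mem_range] at hk
  simp only [Prod.swap_prod_mk]
  unfold tm
  have h := Nat.add_one_mul_choose_eq M k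
  rw [show M + 2 - 1 = M + 1 by omega, show M + 1 - (k + 1) = M - k by omega,
    Nat.centralBinom_eq_two_mul_choose]
  calc (M + 1) * ((M + 1).choose (k + 1) * M.choose k * catalan (k + 1) *
        (2 * (M - k)).choose (M - k))
      = ((M + 1) * M.choose k) * ((M + 1).choose (k + 1) * catalan (k + 1) *
        (2 * (M - k)).choose (M - k)) := by ring
    _ = _ := by rw [h]; ring

lemma tm_eq {p k : ℕ} (hp : p.Prime) (hk : k + 1 < p) :
    (tm p k : ZMod (p ^ 3)) =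
      (k : ZMod (p ^ 3)) * iv p (k + 1) * ((p - 1).choose k : ℕ) ^ 2 * (F p k : ℕ) := by
  have e := mul_iv hp (k := k + 1) (by omega) hk
  have e2 : (k + 1) * catalan k = (2 * k).choose k := by
    rw [succ_mul_catalan_eq_centralBinom, Nat.centralBinom_eq_two_mul_choose]
  have e3 : (((k + 1 : ℕ) : ZMod (p ^ 3))) * (catalan k : ℕ) = ((2 * k).choose k : ℕ) := by
    exact_mod_cast congrArg (fun n : ℕ => (n : ZMod (p ^ 3))) e2
  unfold tm F
  push_cast
  push_cast at e e3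
  rw [← e3]
  linear_combination (-((k : ZMod (p ^ 3)) * ((p - 1).choose k : ℕ) ^ 2 * (catalan k : ℕ) *
    ((2 * (p - 1 - k)).choose (p - 1 - k) : ℕ))) * e

/-- splitting the sum into pairs -/
lemma split {R : Type*} [CommRing R] (m : ℕ) (f : ℕ → R) :
    ∑ k ∈ range (2 * m + 2), f (k + 1) =
      ∑ i ∈ range m, (f (i + 1) + f (2 * m + 2 - (i + 1))) + f (m + 1) + f (2 * m + 2) := by
  have h1 : ∑ k ∈ range (2 * m + 2), f (k + 1) =
      ∑ k ∈ range (m + (1 + m)), f (k + 1) + f (2 * m + 2) := by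
    rw [show 2 * m + 2 = (m + (1 + m)) + 1 by ring, sum_range_succ]
  rw [h1, sum_range_add, sum_range_add, sum_add_distrib]
  have h2 : ∑ x ∈ range m, f (m + (1 + x) + 1) = ∑ i ∈ range m, f (2 * m + 2 - (i + 1)) := by
    rw [← sum_range_reflect]
    apply sum_congr rfl
    intro i hi
    rw [mem_range] at hi
    congr 1
    omega
  rw [h2]
  simp only [range_one, sum_singleton, add_zero]
  ring

theorem Z_mod (hA : S_A) (hB : S_B) {p m : ℕ} (hp : p.Prime) (h3 : 3 < p)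
    (hph : p = 2 * (m + 1) + 1) :
    ((p : ZMod (p ^ 3)) - 1) * (Pool.Agent.R499.Domb.Z (p - 2) : ℕ) =
      - 2 * p * q p - 5 * p ^ 2 * q p ^ 2 := by
  obtain ⟨A1, A2, A3, A4, A5, A6⟩ := hA p (m + 1) hp h3 hph
  obtain ⟨B1, B2, B3, B4⟩ := hB p (m + 1) hp h3 hph
  have hc := cube_zero p
  have hz := Z_eq (p - 2)
  rw [show p - 2 + 1 = 2 * m + 2 by omega, show p - 2 + 2 = p by omega] at hz
  have hz2 : ((p : ZMod (p ^ 3)) - 1) * (Pool.Agent.R499.Domb.Z (p - 2) : ℕ) =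
      ∑ k ∈ range (2 * m + 2), (tm p (k + 1) : ZMod (p ^ 3)) := by
    have h1 := congrArg (fun n : ℕ => (n : ZMod (p ^ 3))) hz
    push_cast at h1
    rw [← h1]
    congr 1
    have : ((p : ℕ) : ZMod (p ^ 3)) = ((2 * (m + 1) + 1 : ℕ) : ZMod (p ^ 3)) :=
      congrArg (fun n : ℕ => (n : ZMod (p ^ 3))) hph
    rw [this]
    push_cast
    ring
  rw [hz2, split m (fun k => (tm p k : ZMod (p ^ 3)))]
  -- the terms in pairs
  have hpair : ∀ i ∈ range m, ((tm p (i + 1) : ZMod (p ^ 3)) + tm p (2 * m + 2 - (i + 1))) =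
      - (p * (iv p (i + 2) + iv p (i + 1) - 2 * iv p (2 * i + 3))) -
      p ^ 2 * (2 * (iv p (i + 2) + iv p (i + 1) - 2 * iv p (2 * i + 3)) *
        (H p (2 * i + 3) - 2 * H p (i + 1)) + iv p (i + 1) ^ 2 * iv p (2 * i + 3)) := by
    intro i hi
    rw [mem_range] at hi
    obtain ⟨n, hn⟩ : ∃ n, n = 2 * m + 2 - (i + 1) := ⟨_, rfl⟩
    have hnp : n + (i + 2) = p := by omega
    rw [← hn]
    have e1 := tm_eq hp (k := i + 1) (by omega)
    have e2 := tm_eq hp (k := n) (by omega)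
    have c1 : (p - 1).choose n = (p - 1).choose (i + 1) := by
      rw [show n = p - 1 - (i + 1) by omega]
      exact Nat.choose_symm (by omega)
    have c2 : F p n = F p (i + 1) := by
      rw [show n = p - 1 - (i + 1) by omega]
      exact F_symm p (i + 1) (by omega)
    rw [e1, e2, c1, c2]
    have b1 := B1 (i + 1) (by omega)
    have b2 := B2 (i + 1) (by omega)
    have u1 := mul_iv hp (k := i + 1) (by omega) (by omega)
    have u2 := mul_iv hp (k := i + 2) (by omega) (by omega)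
    have u3 := mul_iv hp (k := 2 * i + 3) (by omega) (by omega)
    have u4 := mul_iv hp (k := n + 1) (by omega) (by omega)
    have v1 : (n : ZMod (p ^ 3)) = p - (i + 2) := by
      rw [eq_sub_iff_add_eq]
      have := congrArg (fun n : ℕ => (n : ZMod (p ^ 3))) hnp
      push_cast at this
      exact this
    have hF : ((F p (i + 1) : ℕ) : ZMod (p ^ 3)) =
        - p * iv p (2 * i + 3) * (1 + 2 * p * (H p (2 * i + 3) - H p (i + 1))) := by
      unfold F
      rw [b1]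
      rfl
    rw [hF, show i + 1 + 1 = i + 2 by ring]
    push_cast at u1 u2 u3 u4 b2 ⊢
    rw [v1] at u4 ⊢
    generalize (((p - 1).choose (i + 1) : ℕ) : ZMod (p ^ 3)) = Cc at *
    generalize H p (2 * i + 3) = K at *
    generalize H p (i + 1) = L at *
    generalize iv p (n + 1) = w at *
    generalize iv p (2 * i + 3) = z at *
    generalize iv p (i + 2) = y at *
    generalize iv p (i + 1) = x at *
    clear v1 hF c1 c2 e1 e2 b1 hz2 B2 B3 B1 A6 A5 A4 A3 A2 A1 B4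
    generalize (p : ZMod (p ^ 3)) = P at *
    generalize (i : ZMod (p ^ 3)) = I at *
    have xz : x * z = x - 2 * z := by linear_combination x * u3 - 2 * z * u1
    have zy : z * y = 2 * z - y := by linear_combination 2 * z * u2 - y * u3
    have Pw : P * w = - P * x - P ^ 2 * x ^ 2 := by
      linear_combination (P + P ^ 2 * x) * (- x * u4 - w * u1) + x ^ 2 * w * hc
    have y1 : (I + 1) * y = 1 - y := by linear_combination u2
    have w1 : (P - (I + 2)) * w = 1 - w := by linear_combination u4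
    have key : z * (2 - y + x) = x + y - 2 * z := by linear_combination xz - zy
    calc (I + 1) * y * Cc ^ 2 * (-P * z * (1 + 2 * P * (K - L))) +
          (P - (I + 2)) * w * Cc ^ 2 * (-P * z * (1 + 2 * P * (K - L)))
        = ((I + 1) * y + (P - (I + 2)) * w) * (P * Cc ^ 2) * (- z * (1 + 2 * P * (K - L))) := by
          ring
      _ = ((1 - y) + (1 - w)) * (P * (1 - 2 * P * L)) * (- z * (1 + 2 * P * (K - L))) := by
          rw [y1, w1, b2]
      _ = (2 * P - P * y - P * w) * (1 - 2 * P * L) * (- z * (1 + 2 * P * (K - L))) := by ring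
      _ = (2 * P - P * y - (- P * x - P ^ 2 * x ^ 2)) * (1 - 2 * P * L) *
          (- z * (1 + 2 * P * (K - L))) := by rw [Pw]
      _ = - (P * (z * (2 - y + x)) + P ^ 2 * x ^ 2 * z) * (1 - 2 * P * L) *
          (1 + 2 * P * (K - L)) := by ring
      _ = - (P * (x + y - 2 * z) + P ^ 2 * x ^ 2 * z) * (1 - 2 * P * L) *
          (1 + 2 * P * (K - L)) := by rw [key]
      _ = _ := by
          linear_combination (- 2 * x ^ 2 * z * (K - 2 * L) +
            4 * L * (K - L) * (x + y - 2 * z + P * x ^ 2 * z)) * hc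
  rw [sum_congr rfl hpair, sum_sub_distrib, sum_neg_distrib, ← mul_sum, ← mul_sum,
    S1_val hp h3 hph A1, S2_val (q := q p) hp h3 hph A1 A2 A3 A4 A5]
  -- the middle term and the last term
  have hmid : (tm p (m + 1) : ZMod (p ^ 3)) =
      (p - 1) * (1 - p + p ^ 2) * (1 + p * q p) ^ 8 := by
    have e1 := tm_eq hp (k := m + 1) (by omega)
    have hF : F p (m + 1) = (p - 1).choose (m + 1) ^ 2 := by
      unfold F
      rw [show p - 1 - (m + 1) = m + 1 by omega, show 2 * (m + 1) = p - 1 by omega]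
      ring
    have b3 := B3 (m + 1) (by omega)
    rw [A6] at b3
    have u1 := mul_iv hp (k := m + 2) (by omega) (by omega)
    have v : (2 : ZMod (p ^ 3)) * (m + 1) + 1 = p := by
      have := congrArg (fun n : ℕ => (n : ZMod (p ^ 3))) hph
      push_cast at this
      exact this.symm
    rw [e1, hF]
    push_cast at u1 ⊢
    rw [b3, show m + 1 + 1 = m + 2 by ring]
    have s2 : ((-1 : ZMod (p ^ 3)) ^ (m + 1)) ^ 2 = 1 := by
      rw [← pow_mul, mul_comm, pow_mul]; simp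
    have e3 : iv p (m + 2) = 2 * (1 - p + p ^ 2) := by
      apply unit_cancel (a := ((m : ZMod (p ^ 3)) + 2)) (b := iv p (m + 2)) u1
      rw [u1]
      linear_combination (-(1 - (p : ZMod (p ^ 3)) + p ^ 2)) * v - hc
    rw [e3]
    generalize (-1 : ZMod (p ^ 3)) ^ (m + 1) = s at *
    clear e3 b3 e1 hpair hz2 B2 B3 B1 A6 A5 A4 A3 A2 A1 B4 u1
    generalize (q p : ZMod (p ^ 3)) = Q at *
    generalize (p : ZMod (p ^ 3)) = P at *
    generalize (m : ZMod (p ^ 3)) = M at *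
    linear_combination (1 - P + P ^ 2) * (1 + P * Q) ^ 8 * v * s ^ 4 +
      (P - 1) * (1 - P + P ^ 2) * (1 + P * Q) ^ 8 * (s ^ 2 + 1) * s2
  have hlast : (tm p (2 * m + 2) : ZMod (p ^ 3)) = 1 + p + 2 * p ^ 2 := by
    have e : tm p (2 * m + 2) = (p - 1) * catalan (p - 1) := by
      unfold tm
      rw [show 2 * m + 2 = p - 1 by omega]
      simp
    rw [e]
    have v : ((p - 1 : ℕ) : ZMod (p ^ 3)) = p - 1 := by
      rw [Nat.cast_sub (by omega)]; simp
    push_cast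
    rw [v]
    have hcat : ((catalan (p - 1) : ℕ) : ZMod (p ^ 3)) = - (1 + 2 * p + 4 * p ^ 2) := by
      apply unit_cancel (a := (2 * (p : ZMod (p ^ 3)) - 1))
        (b := ((catalan (p - 1) : ℕ) : ZMod (p ^ 3))) B4
      rw [B4]
      linear_combination 8 * hc
    rw [hcat]
    linear_combination (-4) * hc
  rw [hmid, hlast]
  have hh : (p : ZMod (p ^ 3)) * (3 * H p (m + 1) + 3 + 2 * p) =
      3 * (- 2 * p * q p + p ^ 2 * q p ^ 2) + 3 * p + 2 * p ^ 2 := by
    linear_combination 3 * A4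
  rw [hh]
  generalize (q p : ZMod (p ^ 3)) = Q at *
  generalize (p : ZMod (p ^ 3)) = P at *
  linear_combination ((1) * P ^ 0 * Q ^ 0 + (-16) * P ^ 0 * Q ^ 1 + (56) * P ^ 0 * Q ^ 2 + (-56) * P ^ 0 * Q ^ 3 + (8) * P ^ 1 * Q ^ 1 + (-56) * P ^ 1 * Q ^ 2 + (112) * P ^ 1 * Q ^ 3 + (-70) * P ^ 1 * Q ^ 4 + (28) * P ^ 2 * Q ^ 2 + (-112) * P ^ 2 * Q ^ 3 + (140) * P ^ 2 * Q ^ 4 + (-56) * P ^ 2 * Q ^ 5 + (56) * P ^ 3 * Q ^ 3 + (-140) * P ^ 3 * Q ^ 4 + (112) * P ^ 3 * Q ^ 5 + (-28) * P ^ 3 * Q ^ 6 + (70) * P ^ 4 * Q ^ 4 + (-112) * P ^ 4 * Q ^ 5 + (56) * P ^ 4 * Q ^ 6 + (-8) * P ^ 4 * Q ^ 7 + (56) * P ^ 5 * Q ^ 5 + (-56) * P ^ 5 * Q ^ 6 + (16) * P ^ 5 * Q ^ 7 + (-1) * P ^ 5 * Q ^ 8 + (28) * P ^ 6 * Q ^ 6 + (-16) * P ^ 6 * Q ^ 7 + (2) * P ^ 6 * Q ^ 8 + (8) * P ^ 7 * Q ^ 7 + (-2) * P ^ 7 * Q ^ 8 + (1) * P ^ 8 * Q ^ 8) * hc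

end Pool.Agent.P8H62.SC
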