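import Mathlib

/-!
# Harmonic sums modulo `p ^ 3` (project SC)

Everything is in the ring `ZMod (p ^ 3)`, `p = 2 * h + 1` a prime number greater than `3`; the numbers
`1, ..., p - 1` are units there. `H p n` and `H2 p n` are the harmonic numbers and their quadratic
version, `q p` is the Fermat quotient of `2`.
-/

namespace Pool.Agent.P8H62.SC

open Finset

/-- `H_n = ∑_{i = 1}^n 1 / i` -/
noncomputable def H (p n : ℕ) : ZMod (p ^ 3) :=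
  ∑ i ∈ range n, ((i + 1 : ℕ) : ZMod (p ^ 3))⁻¹

/-- `∑_{i = 1}^n 1 / i ^ 2` -/
noncomputable def H2 (p n : ℕ) : ZMod (p ^ 3) :=
  ∑ i ∈ range n, (((i + 1 : ℕ) : ZMod (p ^ 3))⁻¹) ^ 2

/-- `X = ∑_{j = 1}^h H_{2j} / j` -/
noncomputable def XX (p h : ℕ) : ZMod (p ^ 3) :=
  ∑ j ∈ range h, H p (2 * (j + 1)) * ((j + 1 : ℕ) : ZMod (p ^ 3))⁻¹

/-- the Fermat quotient -/
def q (p : ℕ) : ℕ := (2 ^ (p - 1) - 1) / p

/-- Package A: harmonic sums. -/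
def S_A : Prop := ∀ p h : ℕ, p.Prime → 3 < p → p = 2 * h + 1 →
  (p : ZMod (p ^ 3)) * H p (p - 1) = 0 ∧
  (p : ZMod (p ^ 3)) ^ 2 * H2 p h = 0 ∧
  (p : ZMod (p ^ 3)) ^ 2 * H2 p (p - 1) = 0 ∧
  (p : ZMod (p ^ 3)) * H p h = - 2 * p * q p + p ^ 2 * q p ^ 2 ∧
  (p : ZMod (p ^ 3)) ^ 2 * XX p h = p ^ 2 * q p ^ 2 ∧
  (∏ i ∈ range h, (1 - (p : ZMod (p ^ 3)) * ((i + 1 : ℕ) : ZMod (p ^ 3))⁻¹)) = (1 + p * q p) ^ 2

/-- Package B: binomial coefficients. -/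
def S_B : Prop := ∀ p h : ℕ, p.Prime → 3 < p → p = 2 * h + 1 →
  (∀ k < h, (((2 * k).choose k * (2 * (p - 1 - k)).choose (p - 1 - k) : ℕ) : ZMod (p ^ 3)) =
    - p * ((2 * k + 1 : ℕ) : ZMod (p ^ 3))⁻¹ * (1 + 2 * p * (H p (2 * k + 1) - H p k))) ∧
  (∀ k < p, (p : ZMod (p ^ 3)) * (((p - 1).choose k : ℕ) : ZMod (p ^ 3)) ^ 2 =
    p * (1 - 2 * p * H p k)) ∧
  (∀ k < p, (((p - 1).choose k : ℕ) : ZMod (p ^ 3)) =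
    (-1) ^ k * ∏ i ∈ range k, (1 - (p : ZMod (p ^ 3)) * ((i + 1 : ℕ) : ZMod (p ^ 3))⁻¹)) ∧
  (2 * p - 1) * ((catalan (p - 1) : ℕ) : ZMod (p ^ 3)) = 1

end Pool.Agent.P8H62.SC
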